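import Pool.Agent.Q44.PatT

/-!
# All sign patterns of the Liouville function at the shifts given by continued fractions, with the expected frequency

For almost every real number `α` and all integers `u, v, u', v'` with `u v' ≠ u' v` the following holds for all but finitely
many convergents `p / q` of the continued fraction of `α`. Let `b_0 = u p + v q` and `b_1 = u' p + v' q`. For all signs
`ε_0, ε_1` the number of the `n` in `(L, M]` with `λ(n + b_0) = ε_0` and `λ(n + b_1) = ε_1` is `(M - L) / 4` with an error of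
at most `M / (log q) ^ U`, for all `q / (log q) ^ K ≤ L ≤ M ≤ q (log q) ^ K`; and the pattern occurs at positive integers
`n + b_0`, `n + b_1` with `n ≤ q (log q) ^ 2`.

More generally, for almost every `α` in `ℝ ^ d` the same holds for the `2 ^ (d + 1)` patterns of signs at the places
`n + b_0, …, n + b_d`, where `b = Q x` with an integer matrix `Q` of nonzero determinant and `x` is an integer vector which
gives a simultaneous rational approximation of `α` of the quality of Dirichlet's theorem,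
`|α_j - x_j / x_0| ≤ (1 + log x_0) ^ A x_0 ^ (-(1 + 1 / d))`, for all but finitely many `x`. So the set `{b_0, …, b_d}` is
shattered by the windows of `λ`.

Proof. The number of the exceptional tuples `(b_0, …, b_d)` in a box is smaller than the number of all tuples by an arbitrary
power of the logarithm (helper25's `MP_892e4c_nt.PolynomialShifts`); this is applied with the lemma of Borel and Cantelli.
-/

set_option autoImplicit false

namespace Pool.Agent.Results.MP_4fffd4_nt.GoodApproximations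

open Finset MeasureTheory Filter

/-- The Liouville function on the integers: `λ(-n) = λ(n)` and `λ(0) = 0`. -/
def lam (n : ℤ) : ℤ := if n = 0 then 0 else (-1) ^ ArithmeticFunction.cardFactors n.natAbs

/-- All patterns of signs have the expected frequency among the values `λ(n + b_i)`: the number of the `n` in `(L, M]` with
the pattern is `(M - L) / 2 ^ (k + 1)`, with an error of at most `M / (log S) ^ U`, for all `L` and `M` with
`S / (log S) ^ K ≤ L ≤ M ≤ S (log S) ^ K`. -/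
def Equidistributed (K U : ℕ) {k : ℕ} (S : ℝ) (b : Fin (k + 1) → ℤ) : Prop :=
  ∀ ε : Fin (k + 1) → ℤ, (∀ i, ε i = 1 ∨ ε i = -1) → ∀ L M : ℕ, S ≤ Real.log S ^ K * L → L ≤ M →
    (M : ℝ) ≤ Real.log S ^ K * S →
      |(((Ioc L M).filter fun n : ℕ => ∀ i, lam (n + b i) = ε i).card : ℝ) - ((M : ℝ) - L) / 2 ^ (k + 1)| ≤
        M / Real.log S ^ U

/-- All patterns of signs occur among the values of `λ` at the places `n + b_i`, for some `n ≤ S (log S) ^ 2` for which
all these places are positive. -/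
def AllOccur {k : ℕ} (S : ℝ) (b : Fin (k + 1) → ℤ) : Prop :=
  ∀ ε : Fin (k + 1) → ℤ, (∀ i, ε i = 1 ∨ ε i = -1) → ∃ n : ℕ, (n : ℝ) ≤ Real.log S ^ 2 * S ∧
    ∀ i, 0 < n + b i ∧ lam (n + b i) = ε i

/-- The integer vector `x` gives a simultaneous rational approximation of `α` of the quality of Dirichlet's theorem, up
to `(1 + log x_0) ^ A`. -/
def Approximates {d : ℕ} (α : Fin d → ℝ) (A : ℕ) (x : Fin (d + 1) → ℤ) : Prop :=
  1 ≤ x 0 ∧ ∀ j : Fin d, |α j - (x j.succ : ℝ) / (x 0 : ℝ)| ≤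
    (1 + Real.log (x 0)) ^ A * (x 0 : ℝ) ^ (-(1 + 1 / (d : ℝ)))

lemma threshold (k K U : ℕ) : ∃ S₀ : ℝ, 0 ≤ S₀ ∧ ∀ S : ℝ, S₀ < S → 3 ≤ S ∧ 2 ≤ Real.log S ∧
    2 * ((k : ℝ) + 1) * Real.log S ^ (K + U) ≤ S := by
  have h1 := (Real.isLittleO_pow_log_id_atTop (n := K + U)).bound
    (show (0 : ℝ) < 1 / (2 * ((k : ℝ) + 1)) by positivity)
  have h2 := Real.tendsto_log_atTop.eventually_ge_atTop 2
  obtain ⟨S₀, h⟩ := eventually_atTop.1 ((h1.and h2).and (eventually_ge_atTop (3 : ℝ)))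
  refine ⟨max S₀ 0, le_max_right _ _, fun S hS => ?_⟩
  obtain ⟨⟨h3, h4⟩, h5⟩ := h S ((le_max_left _ _).trans hS.le)
  refine ⟨h5, h4, ?_⟩
  rw [Real.norm_eq_abs, abs_of_nonneg (by positivity), id, Real.norm_eq_abs, abs_of_nonneg (by linarith)] at h3
  have h6 : (0 : ℝ) < 2 * ((k : ℝ) + 1) := by positivity
  calc 2 * ((k : ℝ) + 1) * Real.log S ^ (K + U) ≤ 2 * ((k : ℝ) + 1) * (1 / (2 * ((k : ℝ) + 1)) * S) :=
        mul_le_mul_of_nonneg_left h3 h6.le
    _ = S := by field_simp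

lemma equi_points (K U : ℕ) (d : ℕ) (hd : 1 ≤ d) :
    ∀ᵐ α : Fin d → ℝ, ∀ (A : ℕ) (Q : Matrix (Fin (d + 1)) (Fin (d + 1)) ℤ), Q.det ≠ 0 →
      {x : Fin (d + 1) → ℤ | Approximates α A x ∧ ¬ Equidistributed K U (x 0) (Q.mulVec x)}.Finite := by
  obtain ⟨S₀, hS₀, hS⟩ := threshold d K U
  rw [ae_all_iff]
  intro A
  have h1 : ∀ᵐ α : Fin d → ℝ, ∀ Q : {Q : Matrix (Fin (d + 1)) (Fin (d + 1)) ℤ // Q.det ≠ 0},
      {x : Fin (d + 1) → ℤ | Pool.Agent.Q44.CF.NearR α (Pool.Agent.Q44.CF.rad d A) x ∧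
        ¬ Equidistributed K U (x 0) (Q.1.mulVec x)}.Finite := by
    have : Countable (Matrix (Fin (d + 1)) (Fin (d + 1)) ℤ) :=
      inferInstanceAs (Countable (Fin (d + 1) → Fin (d + 1) → ℤ))
    rw [ae_all_iff]
    intro Q
    rw [ae_iff]
    refine Pool.Agent.Q44.CF.null_logT hd (Pool.Agent.Q44.PT.cnt_equi K (U + 2) (A * d + 2) Q.1 Q.2 S₀ hS₀
      fun x hx hP hG => hP ?_)
    obtain ⟨h2, h3, h4⟩ := hS _ hx
    exact Pool.Agent.Q44.PT.equi_of h2 h3 h4 hG
  refine h1.mono fun α hα Q hQ => (hα ⟨Q, hQ⟩).subset ?_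
  rintro x ⟨⟨hx0, hx⟩, hP⟩
  refine ⟨⟨hx0, fun j => (hx j).trans (le_of_eq ?_)⟩, hP⟩
  have e : (((x 0).toNat : ℕ) : ℝ) = (x 0 : ℝ) := by
    have : (((x 0).toNat : ℤ) : ℝ) = (x 0 : ℝ) := by rw [Int.toNat_of_nonneg (by omega)]
    exact_mod_cast this
  unfold Pool.Agent.Q44.CF.rad
  rw [e]

/-- all patterns occur -/
lemma occur_of {k : ℕ} {S : ℝ} {b : Fin (k + 1) → ℤ} (h : Equidistributed 2 1 S b) (hS : 3 ≤ S)
    (hl : 2 ^ (k + 3) < Real.log S) (hb : ∀ i, (|b i| : ℝ) ≤ S * Real.log S) : AllOccur S b := by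
  intro ε hε
  have hp : (8 : ℝ) ≤ 2 ^ (k + 3) := by
    have : (1 : ℝ) ≤ 2 ^ k := one_le_pow₀ (by norm_num)
    rw [pow_add]
    norm_num
    linarith
  have hl8 : 8 < Real.log S := lt_of_le_of_lt hp hl
  have hS0 : 0 < S := by linarith
  obtain ⟨L, hL⟩ : ∃ L : ℕ, L = ⌈S * Real.log S⌉₊ := ⟨_, rfl⟩
  have hL1 : S * Real.log S ≤ L := by rw [hL]; exact Nat.le_ceil _
  have hL2 : (L : ℝ) ≤ 2 * (S * Real.log S) := by
    have h1 : (L : ℝ) < S * Real.log S + 1 := by
      rw [hL]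
      exact Nat.ceil_lt_add_one (by positivity)
    nlinarith
  have hM : (((2 * L : ℕ) : ℕ) : ℝ) ≤ Real.log S ^ 2 * S := by
    push_cast
    nlinarith [mul_pos hS0 (by linarith : (0 : ℝ) < Real.log S)]
  have h1 := h ε hε L (2 * L) (by nlinarith) (by omega) hM
  have hpos : 0 < ((Ioc L (2 * L)).filter fun n : ℕ => ∀ i, lam (n + b i) = ε i).card := by
    have h2 := (abs_le.1 h1).1
    have hL0 : (0 : ℝ) < L := by nlinarith
    have h3 : (((2 * L : ℕ) : ℝ) - L) / 2 ^ (k + 1) = L / 2 ^ (k + 1) := by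
      push_cast
      ring
    have h4 : ((2 * L : ℕ) : ℝ) / Real.log S ^ 1 < L / 2 ^ (k + 1) := by
      rw [pow_one, div_lt_div_iff₀ (by linarith) (by positivity)]
      push_cast
      have h5 : (2 : ℝ) ^ (k + 3) = 4 * 2 ^ (k + 1) := by ring
      have h6 : 2 * (L : ℝ) * 2 ^ (k + 1) < L * (4 * 2 ^ (k + 1)) := by
        have : (0 : ℝ) < 2 ^ (k + 1) := by positivity
        nlinarith
      refine h6.trans_le ?_
      rw [← h5]
      exact mul_le_mul_of_nonneg_left hl.le hL0.le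
    rw [h3] at h2
    have h7 : (0 : ℝ) < (((Ioc L (2 * L)).filter fun n : ℕ => ∀ i, lam (n + b i) = ε i).card : ℝ) := by linarith
    exact_mod_cast h7
  obtain ⟨n, hn⟩ := card_pos.1 hpos
  rw [mem_filter, mem_Ioc] at hn
  obtain ⟨⟨hn1, hn2⟩, hn3⟩ := hn
  refine ⟨n, le_trans (by exact_mod_cast hn2) hM, fun i => ⟨?_, hn3 i⟩⟩
  have h8 : (|b i| : ℝ) < n := lt_of_le_of_lt ((hb i).trans hL1) (by exact_mod_cast hn1)
  have h9 := (abs_lt.1 h8).1
  have h10 : (0 : ℝ) < ((n + b i : ℤ) : ℝ) := by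
    push_cast
    linarith
  exact_mod_cast h10

/-- the coordinates of the approximations -/
lemma coord_le {d : ℕ} (α : Fin d → ℝ) (A : ℕ) : ∃ T : ℝ, 1 ≤ T ∧ ∀ x : Fin (d + 1) → ℤ, Approximates α A x →
    ∀ j, (|x j| : ℝ) ≤ T * (x 0 : ℝ) := by
  refine ⟨(∑ j, |α j|) + ((A : ℝ) + 2) ^ A + 1, ?_, ?_⟩
  · have h1 : 0 ≤ ∑ j, |α j| := sum_nonneg fun _ _ => abs_nonneg _
    have h2 : (0 : ℝ) ≤ ((A : ℝ) + 2) ^ A := by positivity
    linarith
  rintro x ⟨hx0, hx⟩ j
  have hq1 : (1 : ℝ) ≤ (x 0 : ℝ) := by exact_mod_cast hx0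
  have hq0 : (0 : ℝ) < (x 0 : ℝ) := by linarith
  have h1 : 0 ≤ ∑ j, |α j| := sum_nonneg fun _ _ => abs_nonneg _
  have h2 : (0 : ℝ) ≤ ((A : ℝ) + 2) ^ A := by positivity
  refine Fin.cases ?_ (fun i => ?_) j
  · rw [abs_of_pos hq0]
    nlinarith
  · have hlog0 := Real.log_nonneg hq1
    have hA1 : (0 : ℝ) < (A : ℝ) + 1 := by positivity
    have h3 : Real.log (x 0 : ℝ) ≤ (A + 1) * (x 0 : ℝ) ^ (1 / ((A : ℝ) + 1)) := by
      have := Real.log_le_rpow_div hq0.le (show (0 : ℝ) < 1 / ((A : ℝ) + 1) by positivity)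
      refine this.trans (le_of_eq ?_)
      field_simp
    have h4 : 1 + Real.log (x 0 : ℝ) ≤ (A + 2) * (x 0 : ℝ) ^ (1 / ((A : ℝ) + 1)) := by
      have h5 : (1 : ℝ) ≤ (x 0 : ℝ) ^ (1 / ((A : ℝ) + 1)) := Real.one_le_rpow hq1 (by positivity)
      linarith
    have h5 : (1 + Real.log (x 0 : ℝ)) ^ A ≤ (A + 2) ^ A * (x 0 : ℝ) ^ (1 + 1 / (d : ℝ)) := by
      refine (pow_le_pow_left₀ (by linarith) h4 A).trans ?_
      rw [mul_pow]
      refine mul_le_mul_of_nonneg_left ?_ (by positivity)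
      rw [← Real.rpow_natCast, ← Real.rpow_mul hq0.le]
      refine Real.rpow_le_rpow_of_exponent_le hq1 ?_
      have h6 : 1 / ((A : ℝ) + 1) * A ≤ 1 := by
        rw [one_div, inv_mul_le_iff₀ hA1]
        linarith
      have h7 : 0 ≤ 1 / (d : ℝ) := by positivity
      linarith
    have h6 : (1 + Real.log (x 0 : ℝ)) ^ A * (x 0 : ℝ) ^ (-(1 + 1 / (d : ℝ))) ≤ ((A : ℝ) + 2) ^ A := by
      rw [Real.rpow_neg hq0.le, ← div_eq_mul_inv, div_le_iff₀ (by positivity)]
      exact h5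
    have h7 : |(x i.succ : ℝ) / (x 0 : ℝ)| ≤ |α i| + ((A : ℝ) + 2) ^ A := by
      have h8 := (hx i).trans h6
      have h9 : (x i.succ : ℝ) / (x 0 : ℝ) = α i - (α i - (x i.succ : ℝ) / (x 0 : ℝ)) := by ring
      rw [h9]
      exact (abs_sub _ _).trans (by linarith)
    have h8 : |α i| ≤ ∑ j, |α j| := single_le_sum (f := fun j => |α j|) (fun _ _ => abs_nonneg _) (mem_univ i)
    rw [abs_div, abs_of_pos hq0, div_le_iff₀ hq0] at h7
    refine h7.trans (mul_le_mul_of_nonneg_right ?_ hq0.le)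
    linarith

lemma occur_points (d : ℕ) (hd : 1 ≤ d) :
    ∀ᵐ α : Fin d → ℝ, ∀ (A : ℕ) (Q : Matrix (Fin (d + 1)) (Fin (d + 1)) ℤ), Q.det ≠ 0 →
      {x : Fin (d + 1) → ℤ | Approximates α A x ∧ ¬ AllOccur (x 0) (Q.mulVec x)}.Finite := by
  filter_upwards [equi_points 2 1 d hd] with α hα A Q hQ
  obtain ⟨T, hT1, hT⟩ := coord_le α A
  obtain ⟨q, hq1, hq⟩ := Pool.Agent.Q44.LT.mulVec_le Q
  obtain ⟨S₀, hS₀⟩ := eventually_atTop.1 ((Real.tendsto_log_atTop.eventually_gt_atTop ((2 : ℝ) ^ (d + 3))).and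
    ((Real.tendsto_log_atTop.eventually_ge_atTop ((q : ℝ) * (T + 1))).and (eventually_ge_atTop (3 : ℝ))))
  refine ((hα A Q hQ).union (Finset.finite_toSet (Pool.Agent.Q44.CF.box d ⌈T * |S₀|⌉₊))).subset ?_
  rintro x ⟨hx, hP⟩
  by_cases hbig : S₀ ≤ (x 0 : ℝ)
  · left
    refine ⟨hx, fun hE => hP ?_⟩
    obtain ⟨h1, h2, h3⟩ := hS₀ _ hbig
    refine occur_of hE h3 h1 fun i => ?_
    have hx0 : (0 : ℝ) < (x 0 : ℝ) := by linarith
    have h4 := hq ⌈T * (x 0 : ℝ)⌉₊ x (fun j => by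
      have h5 := (hT x hx j).trans (Nat.le_ceil (T * (x 0 : ℝ)))
      exact_mod_cast h5) i
    have h5 : (|Q.mulVec x i| : ℝ) ≤ q * (⌈T * (x 0 : ℝ)⌉₊ : ℝ) := by exact_mod_cast h4
    have h6 : ((⌈T * (x 0 : ℝ)⌉₊ : ℕ) : ℝ) ≤ (T + 1) * (x 0 : ℝ) := by
      have := (Nat.ceil_lt_add_one (show 0 ≤ T * (x 0 : ℝ) by positivity)).le
      nlinarith
    refine h5.trans ?_
    calc (q : ℝ) * (⌈T * (x 0 : ℝ)⌉₊ : ℝ) ≤ q * ((T + 1) * (x 0 : ℝ)) :=
          mul_le_mul_of_nonneg_left h6 (Nat.cast_nonneg _)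
      _ = (x 0 : ℝ) * (q * (T + 1)) := by ring
      _ ≤ _ := mul_le_mul_of_nonneg_left h2 hx0.le
  · right
    rw [mem_coe, Pool.Agent.Q44.CF.mem_box]
    intro j
    have h4 : (|x j| : ℝ) ≤ T * |S₀| := (hT x hx j).trans
      (mul_le_mul_of_nonneg_left ((not_le.1 hbig).le.trans (le_abs_self _)) (by linarith))
    have h5 := h4.trans (Nat.le_ceil (T * |S₀|))
    exact_mod_cast h5

lemma convergents (K U : ℕ) :
    ∀ᵐ α : ℝ, ∀ u v u' v' : ℤ, u * v' ≠ u' * v → ∀ᶠ n in atTop,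
      Equidistributed K U ((α.convergent n).den : ℝ)
        ![u * (α.convergent n).num + v * (α.convergent n).den,
          u' * (α.convergent n).num + v' * (α.convergent n).den] ∧
      AllOccur ((α.convergent n).den : ℝ)
        ![u * (α.convergent n).num + v * (α.convergent n).den,
          u' * (α.convergent n).num + v' * (α.convergent n).den] := by
  have h1 : ∀ᵐ α : Fin 1 → ℝ, ∀ (A : ℕ) (Q : Matrix (Fin (1 + 1)) (Fin (1 + 1)) ℤ), Q.det ≠ 0 →
      {x : Fin (1 + 1) → ℤ | Approximates α A x ∧ ¬ (Equidistributed K U (x 0) (Q.mulVec x) ∧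
        AllOccur (x 0) (Q.mulVec x))}.Finite := by
    filter_upwards [equi_points K U 1 le_rfl, occur_points 1 le_rfl] with α hα hα' A Q hQ
    refine ((hα A Q hQ).union (hα' A Q hQ)).subset ?_
    rintro x ⟨hx, hP⟩
    rw [not_and_or] at hP
    rcases hP with hP | hP
    · exact Or.inl ⟨hx, hP⟩
    · exact Or.inr ⟨hx, hP⟩
  have h2 : ∀ᵐ α : ℝ, Irrational α := by
    have : volume (Set.range ((↑) : ℚ → ℝ)) = 0 := (Set.countable_range _).measure_zero _
    rw [ae_iff]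
    refine measure_mono_null (fun a ha => ?_) this
    exact not_not.1 ha
  have h3 : ∀ᵐ α : ℝ, ∀ Q : Matrix (Fin (1 + 1)) (Fin (1 + 1)) ℤ, Q.det ≠ 0 →
      {x : Fin (1 + 1) → ℤ | Approximates (fun _ => α) 0 x ∧ ¬ (Equidistributed K U (x 0) (Q.mulVec x) ∧
        AllOccur (x 0) (Q.mulVec x))}.Finite := by
    have hmp : MeasurePreserving (MeasurableEquiv.funUnique (Fin 1) ℝ) :=
      volume_preserving_funUnique (Fin 1) ℝ
    have h4 := hmp.symm.quasiMeasurePreserving.ae h1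
    refine h4.mono fun α hα Q hQ => ?_
    have h5 := hα 0 Q hQ
    exact h5
  filter_upwards [h2, h3] with α hirr hα u v u' v' huv
  have h4 := hα !![v, u; v', u'] (by
    rw [Matrix.det_fin_two_of]
    intro h0
    exact huv (by linarith))
  have h5 : {r : ℚ | |α - r| ≤ 1 / (r.den : ℝ) ^ 2 ∧
      ¬ (Equidistributed K U (r.den : ℝ) ![u * r.num + v * r.den, u' * r.num + v' * r.den] ∧
        AllOccur (r.den : ℝ) ![u * r.num + v * r.den, u' * r.num + v' * r.den])}.Finite := by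
    refine Set.Finite.of_finite_image (f := fun r : ℚ => (![(r.den : ℤ), r.num] : Fin (1 + 1) → ℤ)) (h4.subset ?_) ?_
    · rintro _ ⟨r, ⟨hr1, hr3⟩, rfl⟩
      have hden1 : (1 : ℤ) ≤ (r.den : ℤ) := by exact_mod_cast r.den_pos
      have hmul : (!![v, u; v', u'] : Matrix (Fin (1 + 1)) (Fin (1 + 1)) ℤ).mulVec
          (![(r.den : ℤ), r.num] : Fin (1 + 1) → ℤ) =
          ![u * r.num + v * r.den, u' * r.num + v' * r.den] := by
        funext i
        fin_cases i <;> simp [Matrix.mulVec, dotProduct, Fin.sum_univ_two] <;> ring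
      refine ⟨⟨by simpa using hden1, fun j => ?_⟩, ?_⟩
      · have hj : j = 0 := Subsingleton.elim _ _
        subst hj
        have e : (((![(r.den : ℤ), r.num] : Fin (1 + 1) → ℤ) (Fin.succ 0) : ℤ) : ℝ) /
            (((![(r.den : ℤ), r.num] : Fin (1 + 1) → ℤ) 0 : ℤ) : ℝ) = (r : ℝ) := by
          have := Rat.num_div_den r
          have h3 : (((r.num : ℚ) / (r.den : ℚ) : ℚ) : ℝ) = (r : ℝ) := by rw [this]
          rw [← h3]
          push_cast
          rfl
        have e2 : ((((![(r.den : ℤ), r.num] : Fin (1 + 1) → ℤ) 0 : ℤ)) : ℝ) ^ (-(1 + 1 / ((1 : ℕ) : ℝ))) =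
            1 / (r.den : ℝ) ^ 2 := by
          have e3 : (-(1 + 1 / ((1 : ℕ) : ℝ)) : ℝ) = -((2 : ℕ) : ℝ) := by norm_num
          rw [e3, Real.rpow_neg (by simp), Real.rpow_natCast, one_div]
          simp
        rw [e, e2, pow_zero, one_mul]
        exact hr1
      · rw [hmul]
        simpa using hr3
    · intro r _ r' _ hrr
      have e1 := congrFun hrr 0
      have e2 := congrFun hrr 1
      simp at e1 e2
      exact Rat.ext e2 e1
  filter_upwards [Pool.Agent.Q44.CF.eventually_convergent hirr h5] with n hn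
  by_contra hP
  exact hn ⟨Pool.Agent.Q44.CF.near_convergent hirr n, hP⟩

/-- **Theorem.** (1), (2) For almost every `α` in `ℝ ^ d`, all `A` and all integer matrices `Q` of nonzero determinant the
patterns of signs at the places `n + b_i`, `b = Q x`, are equidistributed and all of them occur, with the scale `x_0`, for
all but finitely many of the approximations `x` of `α` of the quality of Dirichlet's theorem. (3) The same for almost every
real number `α`, all integers `u, v, u', v'` with `u v' ≠ u' v` and `b = (u p + v q, u' p + v' q)`, with the scale `q`, for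
all but finitely many convergents `p / q` of `α`. -/
theorem result (K U : ℕ) :
    (∀ d : ℕ, 1 ≤ d → ∀ᵐ α : Fin d → ℝ, ∀ (A : ℕ) (Q : Matrix (Fin (d + 1)) (Fin (d + 1)) ℤ), Q.det ≠ 0 →
      {x : Fin (d + 1) → ℤ | Approximates α A x ∧ ¬ Equidistributed K U (x 0) (Q.mulVec x)}.Finite) ∧
    (∀ d : ℕ, 1 ≤ d → ∀ᵐ α : Fin d → ℝ, ∀ (A : ℕ) (Q : Matrix (Fin (d + 1)) (Fin (d + 1)) ℤ), Q.det ≠ 0 →
      {x : Fin (d + 1) → ℤ | Approximates α A x ∧ ¬ AllOccur (x 0) (Q.mulVec x)}.Finite) ∧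
    (∀ᵐ α : ℝ, ∀ u v u' v' : ℤ, u * v' ≠ u' * v → ∀ᶠ n in atTop,
      Equidistributed K U ((α.convergent n).den : ℝ)
        ![u * (α.convergent n).num + v * (α.convergent n).den,
          u' * (α.convergent n).num + v' * (α.convergent n).den] ∧
      AllOccur ((α.convergent n).den : ℝ)
        ![u * (α.convergent n).num + v * (α.convergent n).den,
          u' * (α.convergent n).num + v' * (α.convergent n).den]) :=
  ⟨equi_points K U, occur_points, convergents K U⟩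

end Pool.Agent.Results.MP_4fffd4_nt.GoodApproximations
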