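import Mathlib
import Pool.Agent.H220M.Fin5

/-!
# Full block complexity after changing the Liouville function at a bounded number of primes, or at any infinite set of primes

`ℕ →*₀ ℤ` (Mathlib): the completely multiplicative functions `f : ℕ → ℤ` with `f 0 = 0`, `f 1 = 1`.
From Mathlib also: `Set.ncard`: the number of elements of a finite set; `∀ᶠ x in atTop`: for all large `x`;
`∃ᶠ x in atTop`: for arbitrarily large `x`; `Measure.infinitePi`: the product measure.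
-/

set_option autoImplicit false

namespace Pool.Agent.Results.MP_4fffd4_nt.ModificationsAllPatterns

open Filter MeasureTheory Finset
open scoped ENNReal

/-- `f` has the values `1` and `-1` at the primes -/
def Sign (f : ℕ →*₀ ℤ) : Prop := ∀ p : ℕ, p.Prime → f p = 1 ∨ f p = -1

/-- the number of the `m < x` such that `f (m + 1), …, f (m + n)` is the pattern `t` -/
def count {n : ℕ} (f : ℕ →*₀ ℤ) (t : Fin n → ℤ) (x : ℕ) : ℕ :=
  ((range x).filter (fun m => ∀ j : Fin n, f (m + j + 1) = t j)).card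

/-- the completely multiplicative functions with values `1`, `-1` which agree with `g` at all primes outside `Q` -/
def family (g : ℕ →*₀ ℤ) (Q : Finset ℕ) : Set (ℕ →*₀ ℤ) :=
  {f | Sign f ∧ ∀ p : ℕ, p.Prime → p ∉ Q → f p = g p}

/-- the patterns of length `n` -/
def Pattern (n : ℕ) (t : Fin n → ℤ) : Prop := ∀ j, t j = 1 ∨ t j = -1

/-- independent fair coins, one for each natural number -/
noncomputable def coins : Measure (ℕ → Bool) :=
  Measure.infinitePi (fun _ : ℕ => (1 / 2 : ℝ≥0∞) • (Measure.dirac true + Measure.dirac false))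

/-- for a large enough bounded number of exceptional primes, wherever they are: some completely multiplicative `f`
which agrees with the Liouville function (`-1` at all primes) outside the exceptional primes has all patterns -/
theorem exists_modification (n : ℕ) : ∃ R : ℕ, ∀ Q : Finset ℕ, (∀ q ∈ Q, q.Prime) → R ≤ Q.card →
    ∃ f : ℕ →*₀ ℤ, Sign f ∧ (∀ p : ℕ, p.Prime → p ∉ Q → f p = -1) ∧
      ∃ δ : ℝ, 0 < δ ∧ ∀ t : Fin n → ℤ, Pattern n t → ∃ᶠ x : ℕ in atTop, δ * x ≤ (count f t x : ℝ) := by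
  obtain ⟨R, hR⟩ := Pool.Agent.H220M.finalA n (1 / 2) (by norm_num)
  refine ⟨R, fun Q hQ hc => ?_⟩
  obtain ⟨δ, hδ, x₀, h⟩ := hR Q hQ hc
  set g : ℕ →*₀ ℤ := Pool.Agent.H220M.homOf (fun _ => -1) with hgd
  have hg1 : ∀ p : ℕ, p.Prime → g p = -1 := fun p hp => by
    rw [hgd, Pool.Agent.H220M.homOf_prime _ hp]
  obtain ⟨h1, h2, h3, h4⟩ := h g (fun p hp => Or.inr (hg1 p hp))
  by_contra hcon
  push Not at hcon
  have hall : {f ∈ Pool.Agent.H220M.family g Q | ∃ t : Fin n → ℤ, (∀ j, t j = 1 ∨ t j = -1) ∧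
            ∀ᶠ x : ℕ in atTop, (Pool.Agent.H220M.cnt f t x : ℝ) < δ * x} =
      Pool.Agent.H220M.family g Q := by
    refine Set.Subset.antisymm (fun f hf => hf.1) (fun f hf => ⟨hf, ?_⟩)
    obtain ⟨t, ht, hx⟩ := hcon f hf.1 (fun p hp hpQ => by rw [hf.2 p hp hpQ, hg1 p hp]) δ hδ
    exact ⟨t, ht, hx⟩
  rw [hall, h2] at h4
  have : (0 : ℝ) < 2 ^ Q.card := by positivity
  push_cast at h4
  linarith

theorem result :
    (∀ n : ℕ, ∃ R : ℕ, ∀ Q : Finset ℕ, (∀ q ∈ Q, q.Prime) → R ≤ Q.card →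
      ∃ f : ℕ →*₀ ℤ, Sign f ∧ (∀ p : ℕ, p.Prime → p ∉ Q → f p = -1) ∧
        ∃ δ : ℝ, 0 < δ ∧ ∀ t : Fin n → ℤ, Pattern n t →
          ∃ᶠ x : ℕ in atTop, δ * x ≤ (count f t x : ℝ)) ∧
    (∀ (n : ℕ) (η : ℝ), 0 < η → ∃ R : ℕ, ∀ Q : Finset ℕ, (∀ q ∈ Q, q.Prime) → R ≤ Q.card →
      ∃ δ : ℝ, 0 < δ ∧ ∃ x₀ : ℕ, ∀ g : ℕ →*₀ ℤ, Sign g →
        (family g Q).ncard = 2 ^ Q.card ∧
        (∀ x ≥ x₀, ({f ∈ family g Q | ¬ ∀ t : Fin n → ℤ, Pattern n t →
            δ * x ≤ (count f t x : ℝ)}.ncard : ℝ) ≤ η * 2 ^ Q.card) ∧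
        ({f ∈ family g Q | ¬ ∀ t : Fin n → ℤ, Pattern n t →
            ∃ᶠ x : ℕ in atTop, δ * x ≤ (count f t x : ℝ)}.ncard : ℝ) ≤ η * 2 ^ Q.card) ∧
    (∀ (g : ℕ →*₀ ℤ), Sign g → ∀ Q : Set ℕ, Q.Infinite → (∀ q ∈ Q, q.Prime) →
      ∀ᵐ ω ∂coins, ∃! f : ℕ →*₀ ℤ,
        ((∀ p : ℕ, p.Prime → p ∉ Q → f p = g p) ∧
         (∀ p : ℕ, p.Prime → p ∈ Q → f p = if ω p = true then - g p else g p)) ∧
        ∀ (n : ℕ) (t : Fin n → ℤ), Pattern n t →
          ∃ δ : ℝ, 0 < δ ∧ ∃ᶠ x : ℕ in atTop, δ * x ≤ (count f t x : ℝ)) := by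
  refine ⟨exists_modification, ?_, ?_⟩
  · intro n η hη
    obtain ⟨R, hR⟩ := Pool.Agent.H220M.finalA n η hη
    refine ⟨R, fun Q hQ hc => ?_⟩
    obtain ⟨δ, hδ, x₀, h⟩ := hR Q hQ hc
    refine ⟨δ, hδ, x₀, fun g hg => ?_⟩
    obtain ⟨h1, h2, h3, h4⟩ := h g hg
    refine ⟨h2, fun x hx => ?_, ?_⟩
    · refine le_trans (le_of_eq ?_) (h3 x hx)
      congr 3
      ext f
      refine and_congr_right fun _ => ?_
      simp only [not_forall, not_le, exists_prop]
      rfl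
    · refine le_trans (le_of_eq ?_) h4
      congr 3
      ext f
      refine and_congr_right fun _ => ?_
      simp only [not_forall, not_frequently, not_le, exists_prop]
      rfl
  · intro g hg Q hQ hQp
    exact Pool.Agent.H220M.finalC g hg Q hQ hQp

end Pool.Agent.Results.MP_4fffd4_nt.ModificationsAllPatterns
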