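import Pool.Agent.Q42.SH.BesOne

/-!
# Sign patterns of the Liouville function: patterns near a subspace, and values determined by an event

At almost all scales the vectors `(λ(n + d))_{d ∈ D}` have asymptotically the identity matrix as covariance
matrix.  So the patterns on `D` near a subspace of dimension `m` occur for a proportion of the `n` of about
`m / #D` at most, and an event of frequency `δ`, for instance the occurrence of a pattern, determines the value
`λ(n + h)` for about `1 / δ` shifts `h` at most.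
-/

set_option autoImplicit false

open Finset Filter

namespace Pool.Agent.Results.MP_4fffd4_nt.PatternsNearSubspaces

/-- the Liouville function -/
noncomputable def lam (n : ℕ) : ℝ := (-1) ^ ArithmeticFunction.cardFactors n

open Classical in
/-- logarithmic density zero -/
def LogDensityZero (E : Set ℕ) : Prop :=
  Tendsto (fun X : ℕ => (∑ N ∈ Icc 1 X, if N ∈ E then (1 : ℝ) / N else 0) / Real.log X) atTop (nhds 0)

open Classical in
/-- the number of `n ≤ N` in `A` -/
noncomputable def count (A : Set ℕ) (N : ℕ) : ℕ := ((Icc 1 N).filter (fun n => n ∈ A)).card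

open Classical in
/-- the number of `n ≤ N` in `A` with `λ(n + h) = 1` minus the number of those with `λ(n + h) = -1` -/
noncomputable def bias (A : Set ℕ) (h N : ℕ) : ℝ := ∑ n ∈ (Icc 1 N).filter (fun n => n ∈ A), lam (n + h)

/-- the functions `v_1, ..., v_m` are orthonormal on `D` -/
def Orthonormal {m : ℕ} (D : Finset ℕ) (v : Fin m → ℕ → ℝ) : Prop :=
  (∀ i, ∑ d ∈ D, v i d ^ 2 = 1) ∧ ∀ i j, i ≠ j → ∑ d ∈ D, v i d * v j d = 0

/-- the square of the length of the projection of the pattern `(λ(n + d))_{d ∈ D}` to the subspace spanned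
by the orthonormal functions `v_1, ..., v_m` -/
noncomputable def proj {m : ℕ} (D : Finset ℕ) (v : Fin m → ℕ → ℝ) (n : ℕ) : ℝ :=
  ∑ i, (∑ d ∈ D, lam (n + d) * v i d) ^ 2

lemma lam_sq (n : ℕ) : lam n * lam n = 1 := by
  unfold lam
  rw [← mul_pow]
  norm_num

lemma lam_abs (n : ℕ) : |lam n| = 1 := by
  unfold lam
  rw [abs_pow, abs_neg, abs_one, one_pow]

/-- the covariances -/
lemma cov (D : Finset ℕ) (κ : ℝ) (N : ℕ)
    (h : ∀ a ∈ D, ∀ c ∈ D, a ≠ c → |∑ n ∈ Icc 1 N, lam (n + a) * lam (n + c)| ≤ κ * N) (w : ℕ → ℝ)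
    (hw : ∑ d ∈ D, w d ^ 2 = 1) (hκ : 0 ≤ κ) :
    |∑ n ∈ Icc 1 N, (∑ d ∈ D, lam (n + d) * w d) ^ 2 - N| ≤ D.card * κ * N := by
  have e1 : ∑ n ∈ Icc 1 N, (∑ d ∈ D, lam (n + d) * w d) ^ 2 =
      ∑ a ∈ D, ∑ c ∈ D, w a * w c * ∑ n ∈ Icc 1 N, lam (n + a) * lam (n + c) := by
    have : ∀ n, (∑ d ∈ D, lam (n + d) * w d) ^ 2 =
        ∑ a ∈ D, ∑ c ∈ D, w a * w c * (lam (n + a) * lam (n + c)) := by
      intro n
      rw [sq, sum_mul_sum]
      exact sum_congr rfl fun a _ => sum_congr rfl fun c _ => by ring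
    simp_rw [this]
    rw [sum_comm]
    refine sum_congr rfl fun a _ => ?_
    rw [sum_comm]
    refine sum_congr rfl fun c _ => ?_
    rw [mul_sum]
  have e2 : ∀ a ∈ D, ∑ c ∈ D, w a * w c * ∑ n ∈ Icc 1 N, lam (n + a) * lam (n + c) =
      w a ^ 2 * N + ∑ c ∈ D.erase a, w a * w c * ∑ n ∈ Icc 1 N, lam (n + a) * lam (n + c) := by
    intro a ha
    rw [← add_sum_erase D _ ha]
    congr 1
    have : ∑ n ∈ Icc 1 N, lam (n + a) * lam (n + a) = N := by
      simp_rw [lam_sq]
      simp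
    rw [this]
    ring
  rw [e1, sum_congr rfl e2, sum_add_distrib, ← sum_mul, hw, one_mul, add_sub_cancel_left]
  have hN0 : (0 : ℝ) ≤ N := Nat.cast_nonneg N
  refine (abs_sum_le_sum_abs _ _).trans ?_
  have e3 : ∀ a ∈ D, |∑ c ∈ D.erase a, w a * w c * ∑ n ∈ Icc 1 N, lam (n + a) * lam (n + c)| ≤
      ∑ c ∈ D, |w a| * |w c| * (κ * N) := by
    intro a ha
    refine (abs_sum_le_sum_abs _ _).trans ?_
    refine (sum_le_sum fun c hc => ?_).trans (sum_le_sum_of_subset_of_nonneg (erase_subset a D)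
      fun c _ _ => by positivity)
    rw [abs_mul, abs_mul]
    rw [mem_erase] at hc
    exact mul_le_mul_of_nonneg_left (h a ha c hc.2 (Ne.symm hc.1)) (by positivity)
  refine (sum_le_sum e3).trans ?_
  have e4 : ∑ a ∈ D, ∑ c ∈ D, |w a| * |w c| * (κ * N) = (∑ a ∈ D, |w a|) ^ 2 * (κ * N) := by
    rw [sq, sum_mul_sum, sum_mul]
    exact sum_congr rfl fun a _ => (sum_mul _ _ _).symm
  rw [e4]
  have e5 : (∑ a ∈ D, |w a|) ^ 2 ≤ D.card := by
    have := sq_sum_le_card_mul_sum_sq (s := D) (f := fun a => |w a|)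
    simp only [sq_abs] at this
    rw [hw, mul_one] at this
    exact this
  calc (∑ a ∈ D, |w a|) ^ 2 * (κ * N) ≤ D.card * (κ * N) := mul_le_mul_of_nonneg_right e5 (by positivity)
    _ = _ := by ring

open Classical in
/-- **Theorem.** There is one set `𝓔` of logarithmic density zero such that for every finite set `D` of
shifts, every `ε > 0` and all large `N` outside `𝓔`:
1. for every set `A` of positive integers
   `∑_{h ∈ D} |∑_{n ≤ N, n ∈ A} λ(n + h)|² ≤ (1 + ε) N #(A ∩ [1, N])`; so, for every `η > 0`, if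
   `#(A ∩ [1, N]) = δ N` then at most `(1 + ε) / (η² δ)` of the shifts `h ∈ D` are such that one of the values
   `1` and `-1` is taken by `λ(n + h)` for at least the proportion `(1 + η) / 2` of the `n ≤ N` in `A`
   (`η = 1`: the value `λ(n + h)` is the same for all these `n`);
2. for all `v_1, ..., v_m` orthonormal on `D` the mean over `n ≤ N` of the square of the length of the projection
   of the pattern `(λ(n + d))_{d ∈ D}` to their span is between `(1 - ε) m` and `(1 + ε) m`; so, for every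
   `θ < 1`, the square of the distance of the pattern from the span is at most `θ #D` for at most
   `(1 + ε) m N / ((1 - θ) #D)` of the `n ≤ N`. -/
theorem result : ∃ 𝓔 : Set ℕ, LogDensityZero 𝓔 ∧ ∀ (D : Finset ℕ) (ε : ℝ), 0 < ε →
    ∃ N₀ : ℕ, ∀ N : ℕ, N₀ ≤ N → N ∉ 𝓔 →
      (∀ A : Set ℕ, ∑ h ∈ D, bias A h N ^ 2 ≤ (1 + ε) * N * count A N ∧
        ∀ η : ℝ, 0 < η → ((D.filter (fun h => η * count A N ≤ |bias A h N|)).card : ℝ) *
          (η ^ 2 * count A N ^ 2) ≤ (1 + ε) * N * count A N) ∧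
      ∀ (m : ℕ) (v : Fin m → ℕ → ℝ), Orthonormal D v →
        |∑ n ∈ Icc 1 N, proj D v n - m * N| ≤ ε * m * N ∧
        ∀ θ : ℝ, θ < 1 → (count {n | (1 - θ) * D.card ≤ proj D v n} N : ℝ) * ((1 - θ) * D.card) ≤
          (1 + ε) * m * N := by
  obtain ⟨E, hE, h1⟩ := Pool.Agent.Q42.SH.two_LZ (-1) (by simp) (by norm_num)
  refine ⟨E, hE, fun D ε hε => ?_⟩
  set κ : ℝ := ε / (D.card + 1) with hκ
  have hκ0 : 0 < κ := by positivity
  have hDκ : D.card * κ ≤ ε := by
    rw [hκ, mul_div_assoc', div_le_iff₀ (by positivity)]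
    nlinarith
  have h2 : ∃ N₀ : ℕ, ∀ N : ℕ, N₀ ≤ N → ∀ a ∈ D, ∀ c ∈ D, a ≠ c → N ∉ E → ∀ γ : ℝ,
      ‖∑ n ∈ Icc 1 N, ((lam (n + a) : ℝ) : ℂ) * (starRingEnd ℂ) ((lam (n + c) : ℝ) : ℂ) *
        Pool.Agent.Helper602.MK.ee (γ * n)‖ ≤ κ * N := by
    refine Pool.Agent.Q42.SH.max_pairs D (fun a c N => N ∉ E → ∀ γ : ℝ,
      ‖∑ n ∈ Icc 1 N, ((lam (n + a) : ℝ) : ℂ) * (starRingEnd ℂ) ((lam (n + c) : ℝ) : ℂ) *
        Pool.Agent.Helper602.MK.ee (γ * n)‖ ≤ κ * N) fun a _ c _ hac => ?_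
    obtain ⟨N₀, h3⟩ := h1 a c hac κ hκ0
    refine ⟨N₀, fun N hN hNE γ => le_trans (le_of_eq ?_) (h3 N hN hNE γ N le_rfl)⟩
    congr 1
    refine sum_congr rfl fun n _ => ?_
    unfold lam
    rw [Complex.conj_ofReal]
    push_cast
    rw [map_neg, map_one]
  obtain ⟨N₀, h3⟩ := h2
  refine ⟨N₀ + 1, fun N hN hNE => ?_⟩
  have hN0 : (0 : ℝ) < N := by exact_mod_cast (by omega : 0 < N)
  have h4 : ∀ a ∈ D, ∀ c ∈ D, a ≠ c → |∑ n ∈ Icc 1 N, lam (n + a) * lam (n + c)| ≤ κ * N := by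
    intro a ha c hc hac
    have h5 := h3 N (by omega) a ha c hc hac hNE 0
    have e1 : ∑ n ∈ Icc 1 N, ((lam (n + a) : ℝ) : ℂ) * (starRingEnd ℂ) ((lam (n + c) : ℝ) : ℂ) *
        Pool.Agent.Helper602.MK.ee (0 * n) = ((∑ n ∈ Icc 1 N, lam (n + a) * lam (n + c) : ℝ) : ℂ) := by
      rw [Complex.ofReal_sum]
      refine sum_congr rfl fun n _ => ?_
      have : Pool.Agent.Helper602.MK.ee (0 * (n : ℝ)) = 1 := by
        rw [zero_mul]
        exact_mod_cast Pool.Agent.Helper602.MK.N_J1c.c_ee_int 0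
      rw [this, mul_one, Complex.conj_ofReal, Complex.ofReal_mul]
    rw [e1, Complex.norm_real, Real.norm_eq_abs] at h5
    exact h5
  refine ⟨fun A => ?_, fun m v hv => ?_⟩
  · have h5 := Pool.Agent.Q42.SH.bes_one D (fun h n => ((lam (n + h) : ℝ) : ℂ))
      (fun h n => by rw [Complex.norm_real, Real.norm_eq_abs, lam_abs]) N κ ε hκ0.le hDκ
      (fun a ha c hc hac γ => h3 N (by omega) a ha c hc hac hNE γ)
      (fun n => if n ∈ A then 1 else 0) (fun _ => 0)
    have e1 : ∀ h, ‖∑ n ∈ Icc 1 N, ((lam (n + h) : ℝ) : ℂ) * (if n ∈ A then (1 : ℂ) else 0) *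
        Pool.Agent.Helper602.MK.ee (0 * n)‖ ^ 2 = bias A h N ^ 2 := by
      intro h
      have : ∑ n ∈ Icc 1 N, ((lam (n + h) : ℝ) : ℂ) * (if n ∈ A then (1 : ℂ) else 0) *
          Pool.Agent.Helper602.MK.ee (0 * n) = ((bias A h N : ℝ) : ℂ) := by
        unfold bias
        rw [Complex.ofReal_sum, sum_filter]
        refine sum_congr rfl fun n _ => ?_
        have : Pool.Agent.Helper602.MK.ee (0 * (n : ℝ)) = 1 := by
          rw [zero_mul]
          exact_mod_cast Pool.Agent.Helper602.MK.N_J1c.c_ee_int 0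
        rw [this, mul_one]
        split_ifs
        · rw [mul_one]
        · rw [mul_zero]
      rw [this, Complex.norm_real, Real.norm_eq_abs, sq_abs]
    have e2 : ∑ n ∈ Icc 1 N, ‖(if n ∈ A then (1 : ℂ) else 0)‖ ^ 2 = (count A N : ℝ) := by
      have : ∀ n ∈ Icc 1 N, ‖(if n ∈ A then (1 : ℂ) else 0)‖ ^ 2 = if n ∈ A then (1 : ℝ) else 0 := by
        intro n _
        split_ifs <;> simp
      rw [sum_congr rfl this, ← sum_filter, sum_const, nsmul_eq_mul, mul_one]
      rfl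
    rw [e2, sum_congr rfl fun h _ => e1 h] at h5
    refine ⟨h5, fun η hη => ?_⟩
    refine le_trans ?_ h5
    rw [← nsmul_eq_mul, ← sum_const]
    refine le_trans (sum_le_sum fun h hh => ?_) (sum_le_sum_of_subset_of_nonneg
      (filter_subset (fun h => η * count A N ≤ |bias A h N|) D) fun _ _ _ => by positivity)
    rw [mem_filter] at hh
    have h6 := pow_le_pow_left₀ (by positivity) hh.2 2
    rw [sq_abs, mul_pow] at h6
    exact h6
  · have hm0 : (0 : ℝ) ≤ m := Nat.cast_nonneg m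
    have h5 : |∑ n ∈ Icc 1 N, proj D v n - m * N| ≤ ε * m * N := by
      unfold proj
      rw [sum_comm]
      have e1 : ∑ i : Fin m, ∑ n ∈ Icc 1 N, (∑ d ∈ D, lam (n + d) * v i d) ^ 2 - m * N =
          ∑ i : Fin m, (∑ n ∈ Icc 1 N, (∑ d ∈ D, lam (n + d) * v i d) ^ 2 - N) := by
        rw [sum_sub_distrib, sum_const, card_univ, Fintype.card_fin, nsmul_eq_mul]
      rw [e1]
      refine (abs_sum_le_sum_abs _ _).trans ?_
      calc ∑ i : Fin m, |∑ n ∈ Icc 1 N, (∑ d ∈ D, lam (n + d) * v i d) ^ 2 - N| ≤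
            ∑ i : Fin m, ε * N := by
            refine sum_le_sum fun i _ => ?_
            refine (cov D κ N h4 (v i) (hv.1 i) hκ0.le).trans ?_
            exact mul_le_mul_of_nonneg_right hDκ hN0.le
        _ = ε * m * N := by
            rw [sum_const, card_univ, Fintype.card_fin, nsmul_eq_mul]
            ring
    refine ⟨h5, fun θ hθ => ?_⟩
    have h6 := (abs_le.1 h5).2
    have h7 : (count {n | (1 - θ) * D.card ≤ proj D v n} N : ℝ) * ((1 - θ) * D.card) ≤
        ∑ n ∈ Icc 1 N, proj D v n := by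
      unfold count
      rw [← nsmul_eq_mul, ← sum_const]
      refine le_trans (sum_le_sum fun n hn => ?_) (sum_le_sum_of_subset_of_nonneg
        (filter_subset (fun n => n ∈ {n | (1 - θ) * (D.card : ℝ) ≤ proj D v n}) (Icc 1 N)) fun n _ _ => ?_)
      · rw [mem_filter] at hn
        exact hn.2
      · unfold proj
        positivity
    nlinarith

end Pool.Agent.Results.MP_4fffd4_nt.PatternsNearSubspaces
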