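import Pool.Agent.Q25.CH1

/-!
# Almost all `d`-element subsets of ANY large set of shifts carry all `2^d` sign patterns of the Liouville function

The two-point theorem of Tao and of Tao and Teräväinen, used for one variable at a time, bounds the mean square over the
`m`-element subsets `S` of a set `D` of `k` shifts of the correlations `∑ ∏_{h ∈ S} λ(n + h)` by `(1 + ε) / (k - m + 1)`.
So for all but few of the `d`-element subsets `D'` of `D` all correlations inside `D'` are small and all `2^d` sign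
patterns on `D'` have about the frequency `2^{-d}`. The set `D` is arbitrary (it can be as sparse as one likes).
-/

set_option autoImplicit false

open Finset Filter

namespace Pool.Agent.Results.MP_4fffd4_nt.ShatteredShifts

/-- the Liouville function -/
noncomputable def lam (n : ℕ) : ℤ := (-1) ^ ArithmeticFunction.cardFactors n

/-- the positive integers `n ≤ N` with `λ(n + h) = w h` for all `h ∈ D` -/
noncomputable def occ (D : Finset ℕ) (w : ℕ → ℤ) (N : ℕ) : Finset ℕ :=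
  {n ∈ Icc 1 N | ∀ h ∈ D, lam (n + h) = w h}

/-- each of the `2^|D|` sign patterns on the shifts `D` occurs at `2^{-|D|} N (1 + O(δ))` of the `n ≤ N` -/
def Uniform (D : Finset ℕ) (N : ℕ) (δ : ℝ) : Prop :=
  ∀ w : ℕ → ℤ, (∀ h, w h = 1 ∨ w h = -1) →
    |((occ D w N).card : ℝ) - (N : ℝ) / 2 ^ D.card| ≤ δ * ((N : ℝ) / 2 ^ D.card)

/-- each of the `2^|D|` sign patterns on the shifts `D` has logarithmic frequency `2^{-|D|} (1 + O(δ))` up to `N` -/
def LogUniform (D : Finset ℕ) (N : ℕ) (δ : ℝ) : Prop :=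
  ∀ w : ℕ → ℤ, (∀ h, w h = 1 ∨ w h = -1) →
    |∑ n ∈ occ D w N, (1 : ℝ) / n - Real.log N / 2 ^ D.card| ≤ δ * (Real.log N / 2 ^ D.card)

/-! ### Patterns and correlations -/

lemma lam_pm (n : ℕ) : lam n = 1 ∨ lam n = -1 := by
  unfold lam
  exact neg_one_pow_eq_or ℤ _

/-- correlation sums with the weights `a` -/
noncomputable def corr (a : ℕ → ℝ) (S : Finset ℕ) (N : ℕ) : ℝ :=
  ∑ n ∈ Icc 1 N, a n * ∏ h ∈ S, (lam (n + h) : ℝ)

lemma indicator (D : Finset ℕ) (w : ℕ → ℤ) (hw : ∀ h, w h = 1 ∨ w h = -1) (n : ℕ) :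
    ∑ S ∈ D.powerset, ∏ h ∈ S, ((w h : ℝ) * (lam (n + h) : ℝ)) =
      if ∀ h ∈ D, lam (n + h) = w h then (2 : ℝ) ^ D.card else 0 := by
  rw [← prod_one_add]
  split_ifs with h
  · have : ∀ x ∈ D, (1 + (w x : ℝ) * (lam (n + x) : ℝ)) = 2 := by
      intro x hx
      rw [h x hx]
      rcases hw x with e | e <;> rw [e] <;> norm_num
    rw [prod_congr rfl this, prod_const]
  · push Not at h
    obtain ⟨x, hx, hne⟩ := h
    apply prod_eq_zero hx
    rcases hw x with e | e <;> rcases lam_pm (n + x) with e' | e'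
    · exact absurd (e'.trans e.symm) hne
    · rw [e, e']
      norm_num
    · rw [e, e']
      norm_num
    · exact absurd (e'.trans e.symm) hne

lemma mass_eq (a : ℕ → ℝ) (D : Finset ℕ) (w : ℕ → ℤ) (hw : ∀ h, w h = 1 ∨ w h = -1) (N : ℕ) :
    2 ^ D.card * ∑ n ∈ occ D w N, a n = ∑ S ∈ D.powerset, (∏ h ∈ S, (w h : ℝ)) * corr a S N := by
  unfold occ corr
  rw [sum_filter, mul_sum]
  have e : ∀ S ∈ D.powerset, (∏ h ∈ S, (w h : ℝ)) * ∑ n ∈ Icc 1 N, a n * ∏ h ∈ S, (lam (n + h) : ℝ) =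
      ∑ n ∈ Icc 1 N, a n * ∏ h ∈ S, ((w h : ℝ) * (lam (n + h) : ℝ)) := by
    intro S _
    rw [mul_sum]
    apply sum_congr rfl
    intro n _
    rw [prod_mul_distrib]
    ring
  rw [sum_congr rfl e, sum_comm]
  apply sum_congr rfl
  intro n _
  rw [← mul_sum, indicator D w hw n]
  split_ifs <;> ring

lemma mass_bound (a : ℕ → ℝ) (D : Finset ℕ) (w : ℕ → ℤ) (hw : ∀ h, w h = 1 ∨ w h = -1) (N : ℕ) (T η : ℝ)
    (h0 : |∑ n ∈ Icc 1 N, a n - T| ≤ η * T) (h1 : ∀ S ⊆ D, S.Nonempty → |corr a S N| ≤ η * T) :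
    |∑ n ∈ occ D w N, a n - T / 2 ^ D.card| ≤ η * T := by
  have e1 : 2 ^ D.card * ∑ n ∈ occ D w N, a n - T =
      ∑ S ∈ D.powerset, ((∏ h ∈ S, (w h : ℝ)) * corr a S N - if S = ∅ then T else 0) := by
    rw [sum_sub_distrib, mass_eq a D w hw N, sum_ite_eq' D.powerset ∅, if_pos (empty_mem_powerset D)]
  have e2 : |2 ^ D.card * ∑ n ∈ occ D w N, a n - T| ≤ 2 ^ D.card * (η * T) := by
    rw [e1]
    refine (abs_sum_le_sum_abs _ _).trans ?_
    have e3 : ∀ S ∈ D.powerset, |(∏ h ∈ S, (w h : ℝ)) * corr a S N - if S = ∅ then T else 0| ≤ η * T := by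
      intro S hS
      rw [mem_powerset] at hS
      rcases S.eq_empty_or_nonempty with rfl | hne
      · rw [if_pos rfl]
        simpa [corr] using h0
      · rw [if_neg hne.ne_empty, sub_zero, abs_mul]
        have e4 : |∏ h ∈ S, (w h : ℝ)| = 1 := by
          rw [abs_prod]
          apply prod_eq_one
          intro x _
          rcases hw x with e | e <;> rw [e] <;> norm_num
        rw [e4, one_mul]
        exact h1 S hS hne
    refine (sum_le_card_nsmul _ _ _ e3).trans (le_of_eq ?_)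
    rw [card_powerset, nsmul_eq_mul]
    push_cast
    ring
  have hp : (0 : ℝ) < 2 ^ D.card := by positivity
  have e5 : ∑ n ∈ occ D w N, a n - T / 2 ^ D.card = (2 ^ D.card * ∑ n ∈ occ D w N, a n - T) / 2 ^ D.card := by
    field_simp
  rw [e5, abs_div, abs_of_pos hp, div_le_iff₀ hp]
  linarith

/-! ### Counting the subsets with a bad correlation -/

open Classical in
lemma card_supersets (D S : Finset ℕ) (d m : ℕ) (hS : S ∈ D.powersetCard m) :
    {D' ∈ D.powersetCard d | S ⊆ D'}.card ≤ (D.card - m).choose (d - m) := by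
  rw [mem_powersetCard] at hS
  have h1 : ((D \ S).powersetCard (d - m)).card = (D.card - m).choose (d - m) := by
    rw [card_powersetCard, card_sdiff_of_subset hS.1, hS.2]
  rw [← h1]
  apply card_le_card_of_injOn (fun D' => D' \ S)
  · intro D' hD'
    rw [mem_coe, mem_filter, mem_powersetCard] at hD'
    rw [mem_coe, mem_powersetCard]
    refine ⟨sdiff_subset_sdiff hD'.1.1 (subset_refl _), ?_⟩
    rw [card_sdiff_of_subset hD'.2, hD'.1.2, hS.2]
  · intro A hA B hB hAB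
    rw [mem_coe, mem_filter] at hA hB
    simp only at hAB
    rw [← sdiff_union_of_subset hA.2, ← sdiff_union_of_subset hB.2, hAB]

open Classical in
lemma count_bad (D : Finset ℕ) (d : ℕ) (bad : Finset ℕ → Prop) (C : ℝ) (hC : 0 ≤ C)
    (h : ∀ m, 1 ≤ m → m ≤ d → (((D.powersetCard m).filter bad).card : ℝ) ≤ C * (D.card.choose m : ℝ)) :
    ({D' ∈ D.powersetCard d | ∃ S ⊆ D', S.Nonempty ∧ bad S}.card : ℝ) ≤ C * 2 ^ d * (D.card.choose d : ℝ) := by
  have h1 : {D' ∈ D.powersetCard d | ∃ S ⊆ D', S.Nonempty ∧ bad S} ⊆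
      (Icc 1 d).biUnion (fun m => ((D.powersetCard m).filter bad).biUnion
        (fun S => {D' ∈ D.powersetCard d | S ⊆ D'})) := by
    intro D' hD'
    rw [mem_filter, mem_powersetCard] at hD'
    obtain ⟨⟨h2, h3⟩, S, h4, h5, h6⟩ := hD'
    rw [mem_biUnion]
    refine ⟨S.card, ?_, ?_⟩
    · rw [mem_Icc]
      exact ⟨h5.card_pos, (card_le_card h4).trans h3.le⟩
    · rw [mem_biUnion]
      refine ⟨S, ?_, ?_⟩
      · rw [mem_filter, mem_powersetCard]
        exact ⟨⟨h4.trans h2, rfl⟩, h6⟩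
      · rw [mem_filter, mem_powersetCard]
        exact ⟨⟨h2, h3⟩, h4⟩
  have h2 : ({D' ∈ D.powersetCard d | ∃ S ⊆ D', S.Nonempty ∧ bad S}.card : ℝ) ≤
      ∑ m ∈ Icc 1 d, (((D.powersetCard m).filter bad).card : ℝ) * ((D.card - m).choose (d - m) : ℝ) := by
    have h3 : {D' ∈ D.powersetCard d | ∃ S ⊆ D', S.Nonempty ∧ bad S}.card ≤
        ∑ m ∈ Icc 1 d, ((D.powersetCard m).filter bad).card * (D.card - m).choose (d - m) := by
      refine (card_le_card h1).trans (card_biUnion_le.trans (sum_le_sum fun m _ => ?_))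
      refine card_biUnion_le.trans ?_
      refine (sum_le_card_nsmul _ _ _ fun S hS => card_supersets D S d m (mem_filter.1 hS).1).trans (le_of_eq ?_)
      rw [smul_eq_mul]
    exact_mod_cast h3
  refine h2.trans ?_
  have h3 : ∀ m ∈ Icc 1 d, (((D.powersetCard m).filter bad).card : ℝ) * ((D.card - m).choose (d - m) : ℝ) ≤
      C * (D.card.choose d : ℝ) * (d.choose m : ℝ) := by
    intro m hm
    rw [mem_Icc] at hm
    refine (mul_le_mul_of_nonneg_right (h m hm.1 hm.2) (Nat.cast_nonneg _)).trans (le_of_eq ?_)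
    have h4 : D.card.choose d * d.choose m = D.card.choose m * (D.card - m).choose (d - m) :=
      Nat.choose_mul hm.2
    have h5 : (D.card.choose d : ℝ) * (d.choose m : ℝ) =
        (D.card.choose m : ℝ) * ((D.card - m).choose (d - m) : ℝ) := by exact_mod_cast h4
    rw [mul_assoc, ← h5]
    ring
  refine (sum_le_sum h3).trans ?_
  rw [← mul_sum]
  have h6 : ∑ m ∈ Icc 1 d, (d.choose m : ℝ) ≤ 2 ^ d := by
    have h7 : ∑ m ∈ Icc 1 d, (d.choose m : ℝ) ≤ ∑ m ∈ range (d + 1), (d.choose m : ℝ) := by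
      apply sum_le_sum_of_subset_of_nonneg
      · intro x hx
        rw [mem_Icc] at hx
        rw [mem_range]
        omega
      · intro _ _ _
        positivity
    refine h7.trans (le_of_eq ?_)
    exact_mod_cast Nat.sum_range_choose d
  have h8 : 0 ≤ C * (D.card.choose d : ℝ) := by positivity
  calc C * (D.card.choose d : ℝ) * ∑ m ∈ Icc 1 d, (d.choose m : ℝ)
      ≤ C * (D.card.choose d : ℝ) * 2 ^ d := mul_le_mul_of_nonneg_left h6 h8
    _ = C * 2 ^ d * (D.card.choose d : ℝ) := by ring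

/-! ### Translation of shifts to linear forms -/

/-- the shift `h` as the linear form `n + h` -/
def emb : ℕ ↪ ℤ × ℤ := ⟨fun h => (1, (h : ℤ)), fun a b h => by simpa using h⟩

lemma emb_apply (h : ℕ) : emb h = (1, (h : ℤ)) := rfl

lemma emb_nonProp (D : Finset ℕ) : Pool.Agent.Q25.CH.NonProportional (D.map emb) := by
  constructor
  · intro L hL
    rw [Finset.mem_map] at hL
    obtain ⟨h, _, rfl⟩ := hL
    simp [emb_apply]
  · intro L hL M hM hne
    rw [Finset.mem_map] at hL hM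
    obtain ⟨h, _, rfl⟩ := hL
    obtain ⟨g, _, rfl⟩ := hM
    intro h1
    apply hne
    simp only [emb_apply, one_mul] at h1 ⊢
    rw [h1]

lemma lamC (n h : ℕ) (hn : 1 ≤ n) :
    Pool.Agent.Q25.CH.lam ((emb h).1 * n + (emb h).2) = ((lam (n + h) : ℝ) : ℂ) := by
  rw [emb_apply]
  unfold Pool.Agent.Q25.CH.lam lam
  simp only [one_mul]
  have h1 : ((n : ℤ) + (h : ℤ)) ≠ 0 := by omega
  rw [if_neg h1]
  have h2 : ((n : ℤ) + (h : ℤ)).natAbs = n + h := by omega
  rw [h2]
  push_cast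
  rfl

lemma chowla_eq (S : Finset ℕ) (N : ℕ) :
    ‖Pool.Agent.Q25.CH.chowla (fun _ => 1) (S.map emb) N‖ = |corr (fun _ => 1) S N| := by
  have e : Pool.Agent.Q25.CH.chowla (fun _ => 1) (S.map emb) N = ((corr (fun _ => 1) S N : ℝ) : ℂ) := by
    unfold Pool.Agent.Q25.CH.chowla corr
    rw [Complex.ofReal_sum]
    apply sum_congr rfl
    intro n hn
    rw [mem_Icc] at hn
    rw [prod_map, prod_congr rfl (fun h _ => lamC n h hn.1)]
    push_cast
    rfl
  rw [e, Complex.norm_real, Real.norm_eq_abs]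

lemma logChowla_eq (S : Finset ℕ) (N : ℕ) :
    ‖Pool.Agent.Q25.CH.logChowla (fun _ => 1) (S.map emb) N‖ = |corr (fun n => 1 / (n : ℝ)) S N| := by
  have e : Pool.Agent.Q25.CH.logChowla (fun _ => 1) (S.map emb) N =
      ((corr (fun n => 1 / (n : ℝ)) S N : ℝ) : ℂ) := by
    unfold Pool.Agent.Q25.CH.logChowla corr
    rw [Complex.ofReal_sum]
    apply sum_congr rfl
    intro n hn
    rw [mem_Icc] at hn
    rw [prod_map, prod_congr rfl (fun h _ => lamC n h hn.1)]
    push_cast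
    ring
  rw [e, Complex.norm_real, Real.norm_eq_abs]

open Classical in
lemma transfer (D : Finset ℕ) (m : ℕ) (p : Finset (ℤ × ℤ) → Prop) (q : Finset ℕ → Prop)
    (h : ∀ S, p (S.map emb) ↔ q S) :
    (((D.map emb).powersetCard m).filter p).card = ((D.powersetCard m).filter q).card := by
  rw [powersetCard_map, filter_map, card_map]
  congr 1
  apply filter_congr
  intro S _
  exact h S

/-! ### The averages over the subsets of a large set -/

lemma harm (η : ℝ) (hη : 0 < η) : ∃ N₀ : ℕ, ∀ N : ℕ, N₀ ≤ N → 0 < Real.log N ∧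
    |∑ n ∈ Icc 1 N, 1 / (n : ℝ) - Real.log N| ≤ η * Real.log N := by
  have hlog : Tendsto (fun X : ℕ => Real.log X) atTop atTop :=
    Real.tendsto_log_atTop.comp tendsto_natCast_atTop_atTop
  obtain ⟨N₂, hN₂⟩ := eventually_atTop.1 (hlog.eventually_ge_atTop (1 / η + 1))
  refine ⟨N₂ + 1, fun N hN => ?_⟩
  have hl := hN₂ N (by omega)
  have h0 : 0 < 1 / η := by positivity
  have hl0 : 0 < Real.log N := by linarith
  refine ⟨hl0, ?_⟩
  have h1 := Pool.Agent.Q42.SH.harmonic_c N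
  have h2 : Real.log N ≤ ∑ i ∈ Icc 1 N, (1 : ℝ) / i := by
    have h8 := log_add_one_le_harmonic N
    have h9 : ∑ i ∈ Icc 1 N, (1 : ℝ) / i = ((harmonic N : ℚ) : ℝ) := by
      rw [harmonic_eq_sum_Icc]
      push_cast
      apply sum_congr rfl
      intro i _
      rw [one_div]
    rw [h9]
    refine le_trans ?_ h8
    apply Real.log_le_log
    · exact_mod_cast (by omega : 0 < N)
    · exact_mod_cast (by omega : N ≤ N + 1)
  have h3 : 1 ≤ η * Real.log N := by
    have h4 : 1 / η ≤ Real.log N := by linarith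
    rw [div_le_iff₀ hη] at h4
    linarith
  rw [abs_le]
  constructor <;> linarith

open Classical in
lemma core (a : ℕ → ℝ) (D : Finset ℕ) (d N : ℕ) (T δ η : ℝ) (hδ : 0 < δ) (hη : η = δ / 2 ^ d)
    (h0 : |∑ n ∈ Icc 1 N, a n - T| ≤ η * T) (hdk : d ≤ D.card)
    (hk : 2 ^ (d + 1) / (δ * η ^ 2) ≤ (D.card : ℝ) - d + 1)
    (hb : ∀ m, 1 ≤ m → m ≤ D.card → (((D.powersetCard m).filter (fun S => η * T ≤ |corr a S N|)).card : ℝ) ≤
      (1 + 1) * ((D.card.choose m : ℝ) / ((D.card : ℝ) - m + 1)) / η ^ 2) :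
    ({D' ∈ D.powersetCard d | ¬ ∀ w : ℕ → ℤ, (∀ h, w h = 1 ∨ w h = -1) →
      |∑ n ∈ occ D' w N, a n - T / 2 ^ D'.card| ≤ δ * (T / 2 ^ D'.card)}.card : ℝ) ≤
      δ * (D.card.choose d : ℝ) := by
  have hη0 : 0 < η := by rw [hη]; positivity
  have hk0 : (0 : ℝ) < (D.card : ℝ) - d + 1 := by
    have : (d : ℝ) ≤ D.card := by exact_mod_cast hdk
    linarith
  set C : ℝ := 2 / (((D.card : ℝ) - d + 1) * η ^ 2) with hC
  have hC0 : 0 ≤ C := by positivity
  have h1 := count_bad D d (fun S => η * T ≤ |corr a S N|) C hC0 (by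
    intro m hm hmd
    refine le_trans (le_of_eq ?_) ((hb m hm (hmd.trans hdk)).trans ?_)
    · congr!
    have h2 : (D.card : ℝ) - d + 1 ≤ (D.card : ℝ) - m + 1 := by
      have : (m : ℝ) ≤ d := by exact_mod_cast hmd
      linarith
    have h3 : (D.card.choose m : ℝ) / ((D.card : ℝ) - m + 1) ≤
        (D.card.choose m : ℝ) / ((D.card : ℝ) - d + 1) :=
      div_le_div_of_nonneg_left (Nat.cast_nonneg _) hk0 h2
    calc (1 + 1) * ((D.card.choose m : ℝ) / ((D.card : ℝ) - m + 1)) / η ^ 2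
        ≤ (1 + 1) * ((D.card.choose m : ℝ) / ((D.card : ℝ) - d + 1)) / η ^ 2 := by gcongr
      _ = C * (D.card.choose m : ℝ) := by
          rw [hC]
          field_simp
          ring)
  have h4 : C * 2 ^ d ≤ δ := by
    rw [hC, div_mul_eq_mul_div, div_le_iff₀ (by positivity)]
    rw [div_le_iff₀ (by positivity)] at hk
    calc 2 * 2 ^ d = (2 : ℝ) ^ (d + 1) := by ring
      _ ≤ _ := hk
      _ = _ := by ring
  refine le_trans ?_ (h1.trans (mul_le_mul_of_nonneg_right h4 (Nat.cast_nonneg _)))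
  have h5 : {D' ∈ D.powersetCard d | ¬ ∀ w : ℕ → ℤ, (∀ h, w h = 1 ∨ w h = -1) →
      |∑ n ∈ occ D' w N, a n - T / 2 ^ D'.card| ≤ δ * (T / 2 ^ D'.card)} ⊆
      {D' ∈ D.powersetCard d | ∃ S ⊆ D', S.Nonempty ∧ η * T ≤ |corr a S N|} := by
    intro D' hD'
    rw [mem_filter] at hD' ⊢
    refine ⟨hD'.1, ?_⟩
    by_contra hcon
    push Not at hcon
    apply hD'.2
    intro w hw
    have h6 := mass_bound a D' w hw N T η h0 (fun S hS hne => (hcon S hS hne).le)
    have h7 : D'.card = d := (mem_powersetCard.1 hD'.1).2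
    refine h6.trans (le_of_eq ?_)
    rw [h7, hη]
    ring
  exact_mod_cast card_le_card h5

/-! ### An infinite set of shifts -/

lemma bessel (D : Finset ℕ) : ∃ N₀ : ℕ, ∀ N : ℕ, N₀ ≤ N → ∀ T ⊆ D,
    ∑ h ∈ D \ T, |corr (fun n => 1 / (n : ℝ)) (insert h T) N| ^ 2 ≤ 2 * Real.log N ^ 2 := by
  obtain ⟨N₀, h1⟩ := Pool.Agent.Q25.CH.keyLog (D.map emb) (emb_nonProp D)
  refine ⟨N₀, fun N hN T hT => ?_⟩
  have h2 := h1 N hN (T.map emb) (map_subset_map.2 hT)
  refine le_trans (le_of_eq ?_) h2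
  have e : D.map emb \ T.map emb = (D \ T).map emb := by
    ext x
    simp only [Finset.mem_sdiff, Finset.mem_map]
    constructor
    · rintro ⟨⟨h, hh, rfl⟩, h3⟩
      exact ⟨h, ⟨hh, fun h4 => h3 ⟨h, h4, rfl⟩⟩, rfl⟩
    · rintro ⟨h, ⟨h3, h4⟩, rfl⟩
      refine ⟨⟨h, h3, rfl⟩, ?_⟩
      rintro ⟨g, hg, h5⟩
      rw [emb.injective h5] at hg
      exact h4 hg
  rw [e, sum_map]
  apply sum_congr rfl
  intro h _
  rw [← map_insert, logChowla_eq]

lemma small_fin (U : Ultrafilter ℕ) (hU : (U : Filter ℕ) ≤ atTop) (T : Finset ℕ) (ε : ℝ) (hε : 0 < ε) :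
    {h : ℕ | h ∉ T ∧ ¬ ∀ᶠ N : ℕ in (U : Filter ℕ),
      |corr (fun n => 1 / (n : ℝ)) (insert h T) N| ≤ ε * Real.log N}.Finite := by
  by_contra hinf
  change Set.Infinite _ at hinf
  obtain ⟨G, hG, hGc⟩ := hinf.exists_subset_card_eq (Nat.floor (2 / ε ^ 2) + 1)
  obtain ⟨N₀, h1⟩ := bessel (T ∪ G)
  have h2 : ∀ h ∈ G, ∀ᶠ N : ℕ in (U : Filter ℕ),
      ε * Real.log N < |corr (fun n => 1 / (n : ℝ)) (insert h T) N| := by
    intro h hh
    have h3 := (hG (mem_coe.2 hh)).2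
    rw [← Ultrafilter.eventually_not] at h3
    filter_upwards [h3] with N hN
    exact not_le.1 hN
  have h3 : ∀ᶠ N : ℕ in (U : Filter ℕ), ∀ h ∈ G,
      ε * Real.log N < |corr (fun n => 1 / (n : ℝ)) (insert h T) N| :=
    (Filter.eventually_all_finset G).2 h2
  have h4 : ∀ᶠ N : ℕ in (U : Filter ℕ), N₀ ≤ N ∧ 2 ≤ N :=
    ((eventually_ge_atTop N₀).and (eventually_ge_atTop 2)).filter_mono hU
  obtain ⟨N, h5, h6, h7⟩ := (h3.and h4).exists
  have hl : 0 < Real.log N := Real.log_pos (by exact_mod_cast (by omega : 1 < N))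
  have h8 := h1 N h6 T subset_union_left
  have e : (T ∪ G) \ T = G := by
    ext x
    simp only [Finset.mem_sdiff, Finset.mem_union]
    constructor
    · rintro ⟨h9 | h9, h10⟩
      · exact absurd h9 h10
      · exact h9
    · intro h9
      exact ⟨Or.inr h9, (hG (mem_coe.2 h9)).1⟩
  rw [e] at h8
  have h9 : (G.card : ℝ) * (ε * Real.log N) ^ 2 ≤
      ∑ h ∈ G, |corr (fun n => 1 / (n : ℝ)) (insert h T) N| ^ 2 := by
    rw [← nsmul_eq_mul, ← Finset.sum_const]
    apply sum_le_sum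
    intro h hh
    exact pow_le_pow_left₀ (by positivity) (h5 h hh).le 2
  have h10 : 2 / ε ^ 2 < (G.card : ℝ) := by
    rw [hGc]
    push_cast
    exact Nat.lt_floor_add_one _
  rw [div_lt_iff₀ (by positivity)] at h10
  have h11 : 2 * Real.log N ^ 2 < (G.card : ℝ) * ε ^ 2 * Real.log N ^ 2 :=
    mul_lt_mul_of_pos_right h10 (by positivity)
  have h12 : (G.card : ℝ) * (ε * Real.log N) ^ 2 = (G.card : ℝ) * ε ^ 2 * Real.log N ^ 2 := by ring
  linarith

/-- the sum of the absolute values of all correlations inside `H` -/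
noncomputable def tot (H : Finset ℕ) (N : ℕ) : ℝ :=
  ∑ S ∈ H.powerset, if S = ∅ then 0 else |corr (fun n => 1 / (n : ℝ)) S N|

lemma tot_mono (H H' : Finset ℕ) (h : H ⊆ H') (N : ℕ) : tot H N ≤ tot H' N := by
  unfold tot
  apply sum_le_sum_of_subset_of_nonneg (powerset_mono.2 h)
  intro S _ _
  split_ifs <;> positivity

lemma step (U : Ultrafilter ℕ) (hU : (U : Filter ℕ) ≤ atTop) (δ : ℝ) (D₀ : Set ℕ) (hD₀ : D₀.Infinite)
    (H : Finset ℕ) (hH : ∃ η < δ, ∀ᶠ N : ℕ in (U : Filter ℕ), tot H N ≤ η * Real.log N) :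
    ∃ h ∈ D₀, h ∉ H ∧ ∃ η < δ, ∀ᶠ N : ℕ in (U : Filter ℕ), tot (insert h H) N ≤ η * Real.log N := by
  obtain ⟨η, hη, h1⟩ := hH
  set ε : ℝ := (δ - η) / 2 / 2 ^ H.card with hε
  have hδη : 0 < δ - η := by linarith
  have hε0 : 0 < ε := by positivity
  have hfin : (⋃ T ∈ H.powerset, {h : ℕ | h ∉ T ∧ ¬ ∀ᶠ N : ℕ in (U : Filter ℕ),
      |corr (fun n => 1 / (n : ℝ)) (insert h T) N| ≤ ε * Real.log N}).Finite :=
    Set.Finite.biUnion (finite_toSet H.powerset) (fun T _ => small_fin U hU T ε hε0)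
  obtain ⟨h, hh⟩ := (hD₀.sdiff (hfin.union H.finite_toSet)).nonempty
  have h2 : h ∉ H := fun h3 => hh.2 (Or.inr (mem_coe.2 h3))
  refine ⟨h, hh.1, h2, η + (δ - η) / 2, by linarith, ?_⟩
  have h3 : ∀ T ∈ H.powerset, ∀ᶠ N : ℕ in (U : Filter ℕ),
      |corr (fun n => 1 / (n : ℝ)) (insert h T) N| ≤ ε * Real.log N := by
    intro T hT
    by_contra hcon
    apply hh.2
    left
    rw [Set.mem_iUnion₂]
    exact ⟨T, hT, fun h4 => h2 (mem_powerset.1 hT h4), hcon⟩
  filter_upwards [h1, (Filter.eventually_all_finset H.powerset).2 h3] with N h4 h5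
  have h6 : tot (insert h H) N = tot H N + ∑ T ∈ H.powerset, |corr (fun n => 1 / (n : ℝ)) (insert h T) N| := by
    unfold tot
    rw [sum_powerset_insert h2]
    congr 1
    apply sum_congr rfl
    intro T _
    rw [if_neg (insert_ne_empty h T)]
  rw [h6]
  have h7 : ∑ T ∈ H.powerset, |corr (fun n => 1 / (n : ℝ)) (insert h T) N| ≤
      2 ^ H.card * (ε * Real.log N) := by
    refine (sum_le_card_nsmul _ _ _ h5).trans (le_of_eq ?_)
    rw [card_powerset, nsmul_eq_mul]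
    push_cast
    ring
  have h8 : 2 ^ H.card * (ε * Real.log N) = (δ - η) / 2 * Real.log N := by
    rw [hε]
    field_simp
  linarith

lemma mass_bound2 (a : ℕ → ℝ) (D : Finset ℕ) (w : ℕ → ℤ) (hw : ∀ h, w h = 1 ∨ w h = -1) (N : ℕ) (T : ℝ) :
    |2 ^ D.card * ∑ n ∈ occ D w N, a n - T| ≤ |∑ n ∈ Icc 1 N, a n - T| +
      ∑ S ∈ D.powerset, if S = ∅ then 0 else |corr a S N| := by
  have e1 : 2 ^ D.card * ∑ n ∈ occ D w N, a n - T =
      ∑ S ∈ D.powerset, ((∏ h ∈ S, (w h : ℝ)) * corr a S N - if S = ∅ then T else 0) := by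
    rw [sum_sub_distrib, mass_eq a D w hw N, sum_ite_eq' D.powerset ∅, if_pos (empty_mem_powerset D)]
  rw [e1]
  refine (abs_sum_le_sum_abs _ _).trans ?_
  have e2 : |∑ n ∈ Icc 1 N, a n - T| = ∑ S ∈ D.powerset, if S = ∅ then |∑ n ∈ Icc 1 N, a n - T| else 0 := by
    rw [sum_ite_eq' D.powerset ∅, if_pos (empty_mem_powerset D)]
  rw [e2, ← sum_add_distrib]
  apply sum_le_sum
  intro S _
  rcases S.eq_empty_or_nonempty with rfl | hne
  · rw [if_pos rfl, if_pos rfl, if_pos rfl]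
    simp [corr]
  · rw [if_neg hne.ne_empty, if_neg hne.ne_empty, if_neg hne.ne_empty, sub_zero, abs_mul, zero_add]
    have e4 : |∏ h ∈ S, (w h : ℝ)| = 1 := by
      rw [abs_prod]
      apply prod_eq_one
      intro x _
      rcases hw x with e | e <;> rw [e] <;> norm_num
    rw [e4, one_mul]

lemma infinite_part (δ : ℝ) (hδ : 0 < δ) (D₀ : Set ℕ) (hD₀ : D₀.Infinite) :
    ∃ D₁ ⊆ D₀, D₁.Infinite ∧ ∀ H : Finset ℕ, (H : Set ℕ) ⊆ D₁ →
      ∃ᶠ N in atTop, ∀ D' ⊆ H, LogUniform D' N δ := by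
  let U : Ultrafilter ℕ := hyperfilter ℕ
  have hU : (U : Filter ℕ) ≤ atTop := by
    rw [← Nat.cofinite_eq_atTop]
    exact hyperfilter_le_cofinite
  let P : Finset ℕ → Prop := fun H => (H : Set ℕ) ⊆ D₀ ∧
    ∃ η < δ, ∀ᶠ N : ℕ in (U : Filter ℕ), tot H N ≤ η * Real.log N
  have hP0 : P ∅ := by
    refine ⟨by simp, 0, hδ, ?_⟩
    filter_upwards with N
    simp [tot]
  have hnext : ∀ x : {H : Finset ℕ // P H}, ∃ y : {H : Finset ℕ // P H}, x.1 ⊆ y.1 ∧ y.1.card = x.1.card + 1 := by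
    rintro ⟨H, hH1, hH2⟩
    obtain ⟨h, h1, h2, h3⟩ := step U hU δ D₀ hD₀ H hH2
    refine ⟨⟨insert h H, ?_, h3⟩, subset_insert _ _, card_insert_of_notMem h2⟩
    rw [coe_insert]
    exact Set.insert_subset h1 hH1
  choose next hn1 hn2 using hnext
  let f : ℕ → {H : Finset ℕ // P H} := fun n => next^[n] ⟨∅, hP0⟩
  have hf : ∀ n, f (n + 1) = next (f n) := fun n => Function.iterate_succ_apply' next n _
  have hmono : Monotone (fun n => (f n).1) := by
    apply monotone_nat_of_le_succ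
    intro n
    rw [hf]
    exact hn1 _
  have hcard : ∀ n, (f n).1.card = n := by
    intro n
    induction n with
    | zero => rfl
    | succ n ih => rw [hf, hn2, ih]
  refine ⟨{h | ∃ n, h ∈ (f n).1}, ?_, ?_, ?_⟩
  · rintro h ⟨n, hn⟩
    exact (f n).2.1 (mem_coe.2 hn)
  · intro hfin
    have h1 : (f (hfin.toFinset.card + 1)).1 ⊆ hfin.toFinset := by
      intro h hh
      rw [Set.Finite.mem_toFinset]
      exact ⟨_, hh⟩
    have h2 := card_le_card h1
    rw [hcard] at h2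
    omega
  · intro H hH
    have h1 : ∃ n, H ⊆ (f n).1 := by
      induction H using Finset.induction_on with
      | empty => exact ⟨0, empty_subset _⟩
      | insert h H _ ih =>
        rw [coe_insert, Set.insert_subset_iff] at hH
        obtain ⟨n, hn⟩ := ih hH.2
        obtain ⟨m, hm⟩ := hH.1
        refine ⟨max n m, insert_subset ?_ ?_⟩
        · exact hmono (le_max_right n m) hm
        · exact hn.trans (hmono (le_max_left n m))
    obtain ⟨n, hn⟩ := h1
    obtain ⟨η, hη, h2⟩ := (f n).2.2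
    obtain ⟨N₀, h3⟩ := harm (δ - η) (by linarith)
    have h4 : ∀ᶠ N : ℕ in (U : Filter ℕ), N₀ ≤ N := (eventually_ge_atTop N₀).filter_mono hU
    have h5 : ∀ᶠ N : ℕ in (U : Filter ℕ), ∀ D' ⊆ H, LogUniform D' N δ := by
      filter_upwards [h2, h4] with N h6 h7 D' hD' w hw
      obtain ⟨h8, h9⟩ := h3 N h7
      have h10 := mass_bound2 (fun n => 1 / (n : ℝ)) D' w hw N (Real.log N)
      have h11 := tot_mono D' _ (hD'.trans hn) N
      unfold tot at h11 h6
      have h12 : |2 ^ D'.card * ∑ n ∈ occ D' w N, (1 : ℝ) / n - Real.log N| ≤ δ * Real.log N := by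
        refine h10.trans ?_
        linarith
      have hp : (0 : ℝ) < 2 ^ D'.card := by positivity
      have e5 : ∑ n ∈ occ D' w N, (1 : ℝ) / n - Real.log N / 2 ^ D'.card =
          (2 ^ D'.card * ∑ n ∈ occ D' w N, (1 : ℝ) / n - Real.log N) / 2 ^ D'.card := by
        field_simp
      rw [e5, abs_div, abs_of_pos hp, div_le_iff₀ hp]
      refine h12.trans (le_of_eq ?_)
      field_simp
    exact h5.frequently.filter_mono hU

open Classical in
/-- logarithmic density zero -/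
def LogDensityZero (E : Set ℕ) : Prop :=
  Tendsto (fun X : ℕ => (∑ N ∈ Icc 1 X, if N ∈ E then (1 : ℝ) / N else 0) / Real.log X) atTop (nhds 0)

open Classical in
/-- **Theorem.**
1. There is a set `E` of logarithmic density zero such that for all `d ≥ 1` and `δ > 0` there is `K` such that for EVERY
   set `D` of at least `K` shifts and all large `N`, for all but `δ C(|D|, d)` of the `d`-element subsets `D'` of `D` each
   of the `2^d` sign patterns of `λ` on `D'` has the frequency `2^{-d} (1 + O(δ))` up to `N`: the natural one if `N ∉ E`,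
   the logarithmic one for all large `N`.
2. For every `δ > 0` every infinite set `D₀` of shifts has an infinite subset `D₁` such that for every finite `H ⊆ D₁`, at
   infinitely many `N`, for all `D' ⊆ H` at once all `2^|D'|` sign patterns on `D'` have the logarithmic frequency
   `2^{-|D'|} (1 + O(δ))` up to `N`. -/
theorem result :
    (∃ E : Set ℕ, LogDensityZero E ∧ ∀ d : ℕ, 1 ≤ d → ∀ δ : ℝ, 0 < δ → ∃ K : ℕ, ∀ D : Finset ℕ, K ≤ D.card →
      ∃ N₀ : ℕ, ∀ N : ℕ, N₀ ≤ N →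
        (N ∉ E → ({D' ∈ D.powersetCard d | ¬ Uniform D' N δ}.card : ℝ) ≤ δ * (D.card.choose d : ℝ)) ∧
        ({D' ∈ D.powersetCard d | ¬ LogUniform D' N δ}.card : ℝ) ≤ δ * (D.card.choose d : ℝ)) ∧
    ∀ δ : ℝ, 0 < δ → ∀ D₀ : Set ℕ, D₀.Infinite → ∃ D₁ ⊆ D₀, D₁.Infinite ∧ ∀ H : Finset ℕ, (H : Set ℕ) ⊆ D₁ →
      ∃ᶠ N in atTop, ∀ D' ⊆ H, LogUniform D' N δ := by
  refine ⟨?_, infinite_part⟩
  obtain ⟨E, hE, h1⟩ := Pool.Agent.Q25.CH.subfam
  refine ⟨E, hE, fun d hd δ hδ => ?_⟩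
  set η : ℝ := δ / 2 ^ d with hη
  have hη0 : 0 < η := by positivity
  refine ⟨d + ⌈(2 : ℝ) ^ (d + 1) / (δ * η ^ 2)⌉₊, fun D hD => ?_⟩
  obtain ⟨N₁, h2⟩ := h1 (D.map emb) (emb_nonProp D) 1 one_pos
  obtain ⟨N₂, h3⟩ := harm η hη0
  have hdk : d ≤ D.card := by omega
  have hk : (2 : ℝ) ^ (d + 1) / (δ * η ^ 2) ≤ (D.card : ℝ) - d + 1 := by
    have h4 := Nat.le_ceil ((2 : ℝ) ^ (d + 1) / (δ * η ^ 2))
    have h5 : ((d + ⌈(2 : ℝ) ^ (d + 1) / (δ * η ^ 2)⌉₊ : ℕ) : ℝ) ≤ (D.card : ℝ) := by exact_mod_cast hD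
    push_cast at h5
    linarith
  refine ⟨N₁ + N₂, fun N hN => ?_⟩
  obtain ⟨hl, h4⟩ := h3 N (by omega)
  have h5 := h2 N (by omega) (fun _ => 1) (by simp)
  constructor
  · intro hNE
    have h6 := core (fun _ => 1) D d N (N : ℝ) δ η hδ hη (by simp; positivity) hdk hk (by
      intro m hm hmk
      have h7 := ((h5 m hm (by rw [card_map]; exact hmk)).1 hNE).2 η hη0
      rw [card_map] at h7
      refine le_trans (le_of_eq ?_) h7
      have h8 := transfer D m (fun S => η * N ≤ ‖Pool.Agent.Q25.CH.chowla (fun _ => 1) S N‖)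
        (fun S => η * N ≤ |corr (fun _ => 1) S N|) (fun S => by rw [chowla_eq])
      congr 1
      rw [← h8])
    refine le_trans (le_of_eq ?_) h6
    congr 2
    apply filter_congr
    intro D' _
    unfold Uniform
    simp only [sum_const, nsmul_eq_mul, mul_one]
  · have h6 := core (fun n => 1 / (n : ℝ)) D d N (Real.log N) δ η hδ hη h4 hdk hk (by
      intro m hm hmk
      have h7 := (h5 m hm (by rw [card_map]; exact hmk)).2.2 η hη0
      rw [card_map] at h7
      refine le_trans (le_of_eq ?_) h7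
      have h8 := transfer D m (fun S => η * Real.log N ≤ ‖Pool.Agent.Q25.CH.logChowla (fun _ => 1) S N‖)
        (fun S => η * Real.log N ≤ |corr (fun n => 1 / (n : ℝ)) S N|) (fun S => by rw [logChowla_eq])
      congr 1
      rw [← h8])
    refine le_trans (le_of_eq ?_) h6
    congr 2

end Pool.Agent.Results.MP_4fffd4_nt.ShatteredShifts
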